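import Mathlib

set_option autoImplicit false

open Set

namespace Pool.Agent.H3.SepHadwiger

/-- Euclidean space of dimension `d`. -/
abbrev E (d : ℕ) := EuclideanSpace ℝ (Fin d)

/-- The space of convex bodies (compact, convex, nonempty interior) of dimension `d` that are
symmetric about the origin, with the Hausdorff metric inherited from `ConvexBody`. -/
abbrev SymBody (d : ℕ) :=
  {K : ConvexBody (E d) // (interior (K : Set (E d))).Nonempty ∧ ∀ x ∈ K, -x ∈ K}

/-- The translate of `K` by the vector `v`. -/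
def tr {d : ℕ} (K : Set (E d)) (v : E d) : Set (E d) := (fun x => v + x) '' K

/-- The translates of `K` by the vectors in `V` form a packing: their interiors are pairwise
disjoint. -/
def IsPacking {d : ℕ} (K : Set (E d)) (V : Set (E d)) : Prop :=
  ∀ u ∈ V, ∀ v ∈ V, u ≠ v → Disjoint (interior (tr K u)) (interior (tr K v))

/-- The family of translates of `K` by the vectors in `V` is totally separable: for every two
members there is a hyperplane `f = c` separating them which meets the interior of no member. -/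
def IsTotallySeparable {d : ℕ} (K : Set (E d)) (V : Set (E d)) : Prop :=
  ∀ u ∈ V, ∀ v ∈ V, u ≠ v → ∃ f : E d →L[ℝ] ℝ, ∃ c : ℝ, f ≠ 0 ∧
    (∀ x ∈ tr K u, f x ≤ c) ∧ (∀ x ∈ tr K v, c ≤ f x) ∧
    ∀ w ∈ V, Disjoint (interior (tr K w)) {x | f x = c}

/-- `V` is (the set of translation vectors of) a separable Hadwiger configuration of `K`:
translates of `K` other than `K`, each touching `K`, which together with `K` form a totally
separable packing. -/
def IsSepHadwigerConfig {d : ℕ} (K : Set (E d)) (V : Finset (E d)) : Prop :=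
  0 ∉ V ∧ (∀ v ∈ V, (tr K v ∩ K).Nonempty) ∧
    IsPacking K (insert 0 (V : Set (E d))) ∧ IsTotallySeparable K (insert 0 (V : Set (E d)))

/-- The separable Hadwiger number: the supremum of the sizes of separable Hadwiger
configurations. -/
noncomputable def Hsep {d : ℕ} (K : Set (E d)) : ℕ∞ :=
  ⨆ (V : Finset (E d)) (_ : IsSepHadwigerConfig K V), (V.card : ℕ∞)

/-- `K` is smooth: through each of its points passes at most one supporting hyperplane
`f = 1` of `K` (if `0` is an interior point of `K`, every supporting hyperplane of `K` can be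
written in this form for exactly one linear functional `f`). -/
def IsSmooth {d : ℕ} (K : Set (E d)) : Prop :=
  ∀ x ∈ K, ∀ f g : E d →L[ℝ] ℝ, (∀ y ∈ K, f y ≤ 1) → (∀ y ∈ K, g y ≤ 1) →
    f x = 1 → g x = 1 → f = g

/-- A real matrix of rank at most `d` of the form `f i (x j)`, with unit diagonal and
off-diagonal entries in `[-1, 0]`, has size `m` with `(8 - d) m ≤ 32`. -/
lemma rank_bound {d : ℕ} {ι : Type*} [Fintype ι] (x : ι → E d)
    (f : ι → (E d →L[ℝ] ℝ)) (h1 : ∀ i, f i (x i) = 1)
    (h2 : ∀ i j, i ≠ j → -1 ≤ f i (x j) ∧ f i (x j) ≤ 0) :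
    (8 - (d : ℝ)) * (Fintype.card ι : ℝ) ≤ 32 := by
  classical
  rcases isEmpty_or_nonempty ι with hι | hι
  · simp
  set n : ℝ := (Fintype.card ι : ℝ) with hn
  have hn1 : 1 ≤ n := by
    have : 0 < Fintype.card ι := Fintype.card_pos
    rw [hn]; exact_mod_cast this
  have hn0 : 0 < n := by linarith
  -- the evaluation map
  let T : E d →ₗ[ℝ] EuclideanSpace ℝ ι :=
    (WithLp.linearEquiv 2 ℝ (ι → ℝ)).symm.toLinearMap ∘ₗ
      LinearMap.pi (fun i => (f i).toLinearMap)
  have hT : ∀ y i, T y i = f i y := fun y i => rfl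
  let V := LinearMap.range T
  have hV : Module.finrank ℝ V ≤ d := by
    have := LinearMap.finrank_range_le T
    simpa using this
  let b := stdOrthonormalBasis ℝ V
  let r := Module.finrank ℝ V
  let e : Fin r → EuclideanSpace ℝ ι := fun k => (b k : EuclideanSpace ℝ ι)
  let α : ι → Fin r → ℝ := fun j k => (inner ℝ (b k) (⟨T (x j), ⟨x j, rfl⟩⟩ : V) : ℝ)
  -- expansion
  have hexp : ∀ j i, f i (x j) = ∑ k, α j k * e k i := by
    intro j i
    have h := b.sum_repr' (⟨T (x j), ⟨x j, rfl⟩⟩ : V)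
    have h' := congrArg (fun z : V => (z : EuclideanSpace ℝ ι) i) h
    simp only [Submodule.coe_sum, Submodule.coe_smul] at h'
    rw [← hT, ← h']
    simp [e, α]
    rfl
  -- norms
  have hα : ∀ j, ∑ k, α j k ^ 2 = ∑ i, f i (x j) ^ 2 := by
    intro j
    have h := b.sum_sq_norm_inner_right (⟨T (x j), ⟨x j, rfl⟩⟩ : V)
    have h' : ‖(⟨T (x j), ⟨x j, rfl⟩⟩ : V)‖ ^ 2 = ∑ i, f i (x j) ^ 2 := by
      rw [Submodule.coe_norm, EuclideanSpace.norm_sq_eq]
      simp [hT]
    rw [← h', ← h]
    simp [α]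
    rfl
  have he : ∀ k, ∑ i, e k i ^ 2 = 1 := by
    intro k
    have h : ‖b k‖ ^ 2 = 1 := by rw [b.norm_eq_one]; norm_num
    rw [Submodule.coe_norm, EuclideanSpace.norm_sq_eq] at h
    simpa [e] using h
  let t : Fin r → ℝ := fun k => ∑ i, e k i
  let β : ι → Fin r → ℝ := fun j k => e k j - 2 / n * t k
  have hβ : ∀ k, ∑ j, β j k ^ 2 = 1 := by
    intro k
    have h3 : ∀ j, β j k ^ 2 = e k j ^ 2 - 4 / n * t k * e k j + 4 / n ^ 2 * t k ^ 2 := by
      intro j
      simp only [β]
      field_simp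
      ring
    simp_rw [h3]
    rw [Finset.sum_add_distrib, Finset.sum_sub_distrib, he, ← Finset.mul_sum]
    simp only [Finset.sum_const, Finset.card_univ, nsmul_eq_mul]
    rw [← hn]
    show 1 - 4 / n * t k * t k + n * (4 / n ^ 2 * t k ^ 2) = 1
    field_simp
    ring
  -- the total sums
  let S : ℝ := ∑ j, ∑ i, f i (x j)
  let Q : ℝ := ∑ j, ∑ i, f i (x j) ^ 2
  have hkey : ∑ j, ∑ k, α j k * β j k = n - 2 / n * S := by
    have h3 : ∀ j, ∑ k, α j k * β j k = 1 - 2 / n * ∑ i, f i (x j) := by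
      intro j
      have h4 : ∑ i, f i (x j) = ∑ k, α j k * t k := by
        simp_rw [hexp j]
        rw [Finset.sum_comm]
        simp_rw [t, Finset.mul_sum]
      rw [h4, ← h1 j, hexp j j, Finset.mul_sum, ← Finset.sum_sub_distrib]
      refine Finset.sum_congr rfl (fun k _ => ?_)
      simp only [β]
      ring
    simp_rw [h3]
    rw [Finset.sum_sub_distrib, ← Finset.mul_sum]
    simp [S, hn]
  have hCS : (n - 2 / n * S) ^ 2 ≤ Q * d := by
    rw [← hkey]
    have h3 : (∑ j, ∑ k, α j k * β j k) ^ 2 ≤ (∑ j, ∑ k, α j k ^ 2) * (∑ j, ∑ k, β j k ^ 2) := by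
      have := Finset.sum_mul_sq_le_sq_mul_sq (Finset.univ : Finset (ι × Fin r))
        (fun p => α p.1 p.2) (fun p => β p.1 p.2)
      simpa [Fintype.sum_prod_type] using this
    have h4 : ∑ j, ∑ k, β j k ^ 2 = r := by
      rw [Finset.sum_comm]
      simp [hβ]
    have h5 : ∑ j, ∑ k, α j k ^ 2 = Q := by
      simp only [Q, hα]
    rw [h4, h5] at h3
    have h6 : 0 ≤ Q := Finset.sum_nonneg (fun j _ => Finset.sum_nonneg (fun i _ => sq_nonneg _))
    have h7 : (r : ℝ) ≤ d := by exact_mod_cast hV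
    exact h3.trans (by gcongr)
  -- the quadratic form is small
  have hQ : Q ≤ 2 * n - S := by
    have h3 : ∀ j i, f i (x j) ^ 2 ≤ (if i = j then 2 else 0) - f i (x j) := by
      intro j i
      split_ifs with h
      · subst h; rw [h1]; norm_num
      · obtain ⟨h4, h5⟩ := h2 i j h
        nlinarith
    have h4 : Q ≤ ∑ j, ∑ i, ((if i = j then (2 : ℝ) else 0) - f i (x j)) :=
      Finset.sum_le_sum (fun j _ => Finset.sum_le_sum (fun i _ => h3 j i))
    refine h4.trans (le_of_eq ?_)
    simp only [Finset.sum_sub_distrib, Finset.sum_ite_eq', Finset.mem_univ, if_true,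
      Finset.sum_const, Finset.card_univ, nsmul_eq_mul]
    rw [← hn]
    show n * 2 - S = 2 * n - S
    ring
  -- conclusion
  set z : ℝ := S / n with hz
  have hS : S = n * z := by rw [hz]; field_simp
  have h3 : (n - 2 * z) ^ 2 ≤ (2 * n - n * z) * d := by
    have h5 : (n - 2 / n * S) = n - 2 * z := by rw [hS]; field_simp
    rw [h5] at hCS
    have h6 : (0 : ℝ) ≤ d := Nat.cast_nonneg d
    rw [hS] at hQ
    exact hCS.trans (by gcongr)
  by_contra hcon
  push Not at hcon
  have h6 : (0 : ℝ) ≤ d := Nat.cast_nonneg d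
  have hd0 : 0 < (d : ℝ) := by
    rcases Nat.eq_zero_or_pos d with h | h
    · exfalso
      subst h
      obtain ⟨i⟩ := hι
      have : x i = 0 := Subsingleton.elim _ _
      have h7 := h1 i
      rw [this] at h7
      simp at h7
    · exact_mod_cast h
  have h8 : 0 < n * d * ((8 - d) * n - 32) := by
    apply mul_pos (mul_pos hn0 hd0)
    linarith
  nlinarith [sq_nonneg (8 * z - (4 - d) * n)]

section Geometry

variable {d : ℕ} {K : Set (E d)}

lemma zero_mem_interior (hc : Convex ℝ K) (hs : ∀ x ∈ K, -x ∈ K) (hi : (interior K).Nonempty) :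
    (0 : E d) ∈ interior K := by
  obtain ⟨p, hp⟩ := hi
  have hn : -p ∈ interior K := by
    have hK : -K = K := by
      ext z
      rw [Set.mem_neg]
      exact ⟨fun h => by simpa using hs _ h, fun h => hs _ h⟩
    have h1 : -interior K = interior (-K) := by
      have := (Homeomorph.neg (E d)).image_interior K
      simpa using this
    rw [← hK, ← h1, Set.mem_neg, neg_neg]
    exact hp
  have := hc.interior hp hn (show (0 : ℝ) ≤ 1 / 2 by norm_num) (show (0 : ℝ) ≤ 1 / 2 by norm_num)
    (by norm_num)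
  simpa using this

lemma smul_mem_interior (hc : Convex ℝ K) (h0 : (0 : E d) ∈ interior K) {y : E d} (hy : y ∈ K)
    {t : ℝ} (ht0 : 0 ≤ t) (ht1 : t < 1) : t • y ∈ interior K := by
  have := hc.combo_interior_self_mem_interior h0 hy (show 0 < 1 - t by linarith) ht0 (by ring)
  simpa using this

lemma add_mem_interior_tr (v : E d) {y : E d} (hy : y ∈ interior K) :
    v + y ∈ interior (tr K v) := by
  have : tr K v = (Homeomorph.addLeft v) '' K := rfl
  rw [this, ← Homeomorph.image_interior]
  exact ⟨y, hy, rfl⟩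

/-- from a separating hyperplane of `K` and a touching translate one gets a supporting
functional with good properties -/
lemma good_functional (hc : Convex ℝ K) (hs : ∀ x ∈ K, -x ∈ K) (hi : (interior K).Nonempty)
    {V : Finset (E d)} (hV : IsSepHadwigerConfig K V) {v : E d} (hv : v ∈ V) :
    ∃ F : E d →L[ℝ] ℝ, (∀ y ∈ K, F y ≤ 1) ∧ F v = 2 ∧ (1 / 2 : ℝ) • v ∈ K ∧
      ∀ w ∈ V, F w ≤ 0 ∨ 2 ≤ F w := by
  obtain ⟨hV0, htouch, _, hsep⟩ := hV
  have h0 := zero_mem_interior hc hs hi
  have h0K : (0 : E d) ∈ K := interior_subset h0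
  have hv0 : v ≠ 0 := fun h => hV0 (h ▸ hv)
  obtain ⟨f, c, hf, hf1, hf2, hf3⟩ := hsep 0 (Set.mem_insert _ _) v
    (Set.mem_insert_of_mem _ (by exact_mod_cast hv)) hv0.symm
  have hf1' : ∀ y ∈ K, f y ≤ c := fun y hy => hf1 y ⟨y, hy, by simp⟩
  -- `c` is positive
  have hcn : c ≠ 0 := by
    intro h
    have h1 := hf3 0 (Set.mem_insert _ _)
    have h2 : (0 : E d) ∈ interior (tr K 0) := by
      simpa using add_mem_interior_tr (0 : E d) h0
    exact Set.disjoint_left.mp h1 h2 (by simp [h])
  have hcpos : 0 < c := lt_of_le_of_ne (by simpa using hf1' 0 h0K) hcn.symm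
  let F : E d →L[ℝ] ℝ := c⁻¹ • f
  have hF : ∀ y, F y = c⁻¹ * f y := fun y => rfl
  have hF1 : ∀ y ∈ K, F y ≤ 1 := by
    intro y hy
    rw [hF, inv_mul_le_iff₀ hcpos, mul_one]
    exact hf1' y hy
  have hF2 : ∀ y ∈ K, 1 ≤ F v + F y := by
    intro y hy
    have := hf2 (v + y) ⟨y, hy, rfl⟩
    rw [hF, hF, ← mul_add, ← map_add, le_inv_mul_iff₀ hcpos, mul_one]
    exact this
  obtain ⟨y, ⟨z, hz, hzy⟩, hy⟩ := htouch v hv
  have hzy : v + z = y := hzy
  -- the values
  have hFv : F v = 2 := by
    have h1 := hF1 y hy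
    have h2 := hF1 (-z) (hs z hz)
    have h3 := hF2 z hz
    have h4 := hF2 (-y) (hs y hy)
    have h5 : F y = F v + F z := by rw [← hzy, map_add]
    rw [map_neg] at h2 h4
    linarith
  refine ⟨F, hF1, hFv, ?_, ?_⟩
  · have h1 := hc hy (hs z hz) (show (0 : ℝ) ≤ 1 / 2 by norm_num)
      (show (0 : ℝ) ≤ 1 / 2 by norm_num) (by norm_num)
    have h2 : (1 / 2 : ℝ) • y + (1 / 2 : ℝ) • (-z) = (1 / 2 : ℝ) • v := by
      rw [← hzy]; module
    rwa [h2] at h1
  · have hx : (1 / 2 : ℝ) • v ∈ K := by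
      have h1 := hc hy (hs z hz) (show (0 : ℝ) ≤ 1 / 2 by norm_num)
        (show (0 : ℝ) ≤ 1 / 2 by norm_num) (by norm_num)
      have h2 : (1 / 2 : ℝ) • y + (1 / 2 : ℝ) • (-z) = (1 / 2 : ℝ) • v := by
        rw [← hzy]; module
      rwa [h2] at h1
    intro w hw
    by_contra hcon
    push Not at hcon
    obtain ⟨hw1, hw2⟩ := hcon
    have hdis := hf3 w (Set.mem_insert_of_mem _ (by exact_mod_cast hw))
    -- find a point of the interior of the translate on the hyperplane
    have hpt : ∀ p : E d, F p = 1 → f p = c := by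
      intro p hp
      rw [hF] at hp
      field_simp at hp
      exact hp
    rcases le_total (F w) 1 with h | h
    · have h1 := smul_mem_interior hc h0 hx (show 0 ≤ 1 - F w by linarith)
        (show 1 - F w < 1 by linarith)
      refine Set.disjoint_left.mp hdis (add_mem_interior_tr w h1) (hpt _ ?_)
      rw [map_add, map_smul, map_smul, hFv]
      simp
    · have h1 := smul_mem_interior hc h0 (hs _ hx) (show 0 ≤ F w - 1 by linarith)
        (show F w - 1 < 1 by linarith)
      refine Set.disjoint_left.mp hdis (add_mem_interior_tr w h1) (hpt _ ?_)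
      rw [map_add, map_smul, map_neg, map_smul, hFv]
      simp

/-- the separation between two touching translates of a smooth body -/
lemma smooth_absurd (hc : Convex ℝ K) (hs : ∀ x ∈ K, -x ∈ K) (hi : (interior K).Nonempty)
    (hsm : IsSmooth K) {V : Finset (E d)} (hV : IsSepHadwigerConfig K V) {v w : E d}
    (hv : v ∈ V) (hw : w ∈ V) (hvw : v ≠ w) (F : E d →L[ℝ] ℝ) (hF1 : ∀ y ∈ K, F y ≤ 1)
    (hxv : (1 / 2 : ℝ) • v ∈ K) (hxw : (1 / 2 : ℝ) • w ∈ K) (hFv : F v = 2) (hFw : F w = 2) :
    False := by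
  obtain ⟨hV0, htouch, _, hsep⟩ := hV
  have h0 := zero_mem_interior hc hs hi
  obtain ⟨g, c, hg, hg1, hg2, hg3⟩ := hsep v (Set.mem_insert_of_mem _ (by exact_mod_cast hv)) w
    (Set.mem_insert_of_mem _ (by exact_mod_cast hw)) hvw
  have hdis := hg3 0 (Set.mem_insert _ _)
  have hmiss : ∀ p ∈ interior K, g p ≠ c := by
    intro p hp h
    have h2 : p ∈ interior (tr K 0) := by simpa using add_mem_interior_tr (0 : E d) hp
    exact Set.disjoint_left.mp hdis h2 h
  have hcn : c ≠ 0 := by
    intro h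
    exact hmiss 0 h0 (by simp [h])
  -- a symmetric argument
  have main : ∀ a b : E d, (1 / 2 : ℝ) • a ∈ K → (1 / 2 : ℝ) • b ∈ K → F a = 2 → F b = 2 →
      ∀ G : E d →L[ℝ] ℝ, (∀ p ∈ interior K, G p ≠ 1) → (∀ y ∈ K, G (a + y) ≤ 1) →
      (∀ y ∈ K, 1 ≤ G (b + y)) → False := by
    intro a b ha hb hFa hFb G hG1 hG2 hG3
    have hGK : ∀ y ∈ K, G y ≤ 1 := by
      intro y hy
      by_contra hcon
      push Not at hcon
      have hpos : 0 < G y := by linarith
      refine hG1 ((G y)⁻¹ • y) (smul_mem_interior hc h0 hy (by positivity)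
        (inv_lt_one_of_one_lt₀ hcon)) ?_
      rw [map_smul, smul_eq_mul, inv_mul_cancel₀ hpos.ne']
    have hGb : G ((1 / 2 : ℝ) • b) = 1 := by
      apply le_antisymm (hGK _ hb)
      have h1 := hG3 (-((1 / 2 : ℝ) • b)) (hs _ hb)
      have h2 : b + -((1 / 2 : ℝ) • b) = (1 / 2 : ℝ) • b := by module
      rwa [h2] at h1
    have hGF : G = F := hsm _ hb G F hGK hF1 hGb (by rw [map_smul, hFb]; norm_num)
    have h1 := hG2 ((1 / 2 : ℝ) • a) ha
    rw [hGF, map_add, map_smul, hFa] at h1
    norm_num at h1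
  let G : E d →L[ℝ] ℝ := c⁻¹ • g
  have hG : ∀ y, G y = c⁻¹ * g y := fun y => rfl
  have hG1 : ∀ p ∈ interior K, G p ≠ 1 := by
    intro p hp h
    rw [hG] at h
    refine hmiss p hp ?_
    field_simp at h
    exact h
  rcases lt_or_gt_of_ne hcn with hneg | hpos
  · refine main w v hxw hxv hFw hFv G hG1 (fun y hy => ?_) (fun y hy => ?_)
    · have := hg2 (w + y) ⟨y, hy, rfl⟩
      rw [hG, ← div_eq_inv_mul, div_le_one_of_neg hneg]
      exact this
    · have := hg1 (v + y) ⟨y, hy, rfl⟩
      rw [hG, ← div_eq_inv_mul, one_le_div_of_neg hneg]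
      exact this
  · refine main v w hxv hxw hFv hFw G hG1 (fun y hy => ?_) (fun y hy => ?_)
    · have := hg1 (v + y) ⟨y, hy, rfl⟩
      rw [hG, ← div_eq_inv_mul, div_le_one hpos]
      exact this
    · have := hg2 (w + y) ⟨y, hy, rfl⟩
      rw [hG, ← div_eq_inv_mul, one_le_div hpos]
      exact this

/-- the upper bound for a configuration of a smooth or strictly convex body -/
lemma config_bound (hc : Convex ℝ K) (hs : ∀ x ∈ K, -x ∈ K) (hi : (interior K).Nonempty)
    (hK : IsSmooth K ∨ StrictConvex ℝ K) {V : Finset (E d)} (hV : IsSepHadwigerConfig K V) :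
    (8 - (d : ℝ)) * (V.card : ℝ) ≤ 32 := by
  choose F hF1 hF2 hF3 hF4 using fun v : V => good_functional hc hs hi hV v.2
  have h := rank_bound (ι := V) (fun v => (1 / 2 : ℝ) • (v : E d)) F
    (fun v => by rw [map_smul, hF2]; norm_num) ?_
  · simpa using h
  intro v w hvw
  have hle : F v ((1 / 2 : ℝ) • (w : E d)) ≤ 1 := hF1 v _ (hF3 w)
  have hge : -1 ≤ F v ((1 / 2 : ℝ) • (w : E d)) := by
    have := hF1 v _ (hs _ (hF3 w))
    rw [map_neg] at this
    linarith
  refine ⟨hge, ?_⟩
  rcases hF4 v w w.2 with h | h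
  · rw [map_smul, smul_eq_mul]; linarith
  · exfalso
    rw [map_smul, smul_eq_mul] at hle
    have hFw : F v w = 2 := by linarith
    have hne : (v : E d) ≠ w := fun h => hvw (Subtype.ext h)
    rcases hK with hK | hK
    · exact smooth_absurd hc hs hi hK hV v.2 w.2 hne (F v) (hF1 v) (hF3 v) (hF3 w) (hF2 v) hFw
    · -- the midpoint is an interior point
      have hne' : (1 / 2 : ℝ) • (v : E d) ≠ (1 / 2 : ℝ) • (w : E d) := by
        intro h
        apply hne
        have := congrArg (fun z => (2 : ℝ) • z) h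
        simpa [smul_smul] using this
      have hmid := hK (hF3 v) (hF3 w) hne' (show (0 : ℝ) < 1 / 2 by norm_num)
        (show (0 : ℝ) < 1 / 2 by norm_num) (by norm_num)
      set p : E d := (1 / 2 : ℝ) • (1 / 2 : ℝ) • (v : E d) + (1 / 2 : ℝ) • (1 / 2 : ℝ) • (w : E d)
        with hp
      have hFp : F v p = 1 := by
        rw [hp]
        simp only [map_add, map_smul, smul_eq_mul, hF2, hFw]
        norm_num
      -- move a bit in the direction of `v`
      have hnhds : interior K ∈ nhds p := isOpen_interior.mem_nhds hmid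
      have hcont : Filter.Tendsto (fun t : ℝ => p + t • (v : E d)) (nhdsWithin 0 (Set.Ioi 0))
          (nhds p) := by
        have : Filter.Tendsto (fun t : ℝ => p + t • (v : E d)) (nhds 0) (nhds (p + (0 : ℝ) • (v : E d))) :=
          (Continuous.tendsto (by fun_prop) _)
        rw [zero_smul, add_zero] at this
        exact this.mono_left nhdsWithin_le_nhds
      obtain ⟨t, ht1, ht2⟩ := ((hcont.eventually hnhds).and self_mem_nhdsWithin).exists
      have h3 := hF1 v _ (interior_subset ht1)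
      rw [map_add, map_smul, hFp, hF2, smul_eq_mul] at h3
      have ht2 : 0 < t := ht2
      linarith

end Geometry

section Lower

variable {d : ℕ} {K : Set (E d)}

lemma lt_of_mem_interior {S : Set (E d)} {g : E d →L[ℝ] ℝ} (hg : g ≠ 0) {c : ℝ}
    (h : ∀ x ∈ S, g x ≤ c) {x : E d} (hx : x ∈ interior S) : g x < c := by
  obtain ⟨v, hv⟩ : ∃ v, 0 < g v := by
    by_contra hcon
    push Not at hcon
    apply hg
    ext v
    have h1 := hcon v
    have h2 := hcon (-v)
    rw [map_neg] at h2
    simp only [zero_apply]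
    linarith
  have hcont : Filter.Tendsto (fun t : ℝ => x + t • v) (nhdsWithin 0 (Set.Ioi 0)) (nhds x) := by
    have : Filter.Tendsto (fun t : ℝ => x + t • v) (nhds 0) (nhds (x + (0 : ℝ) • v)) :=
      (Continuous.tendsto (by fun_prop) _)
    rw [zero_smul, add_zero] at this
    exact this.mono_left nhdsWithin_le_nhds
  obtain ⟨t, ht1, ht2⟩ := ((hcont.eventually (isOpen_interior.mem_nhds hx)).and
    self_mem_nhdsWithin).exists
  have h3 := h _ (interior_subset ht1)
  rw [map_add, map_smul, smul_eq_mul] at h3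
  have ht2 : 0 < t := ht2
  nlinarith [mul_pos ht2 hv]

/-- Auerbach's lemma for a symmetric compact set with interior points. -/
lemma auerbach (hk : IsCompact K) (h0 : (0 : E d) ∈ interior K) :
    ∃ (x : Fin d → E d) (f : Fin d → (E d →L[ℝ] ℝ)), (∀ i, x i ∈ K) ∧
      (∀ i j, f i (x j) = if i = j then 1 else 0) ∧ ∀ i, ∀ y ∈ K, f i y ≤ 1 := by
  classical
  let b := (EuclideanSpace.basisFun (Fin d) ℝ).toBasis
  let D : (Fin d → E d) → ℝ := fun x => b.det x
  have hDc : Continuous D := by
    show Continuous (fun x : Fin d → E d => (b.toMatrix x).det)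
    apply Continuous.matrix_det
    apply continuous_pi
    intro i
    apply continuous_pi
    intro j
    have : (fun x : Fin d → E d => b.toMatrix x i j) = fun x => x j i := by
      ext x
      simp [b, Module.Basis.toMatrix_apply]
    rw [this]
    fun_prop
  have hkc : IsCompact (Set.pi Set.univ (fun _ : Fin d => K)) := isCompact_univ_pi (fun _ => hk)
  obtain ⟨x, hx, hmax⟩ := hkc.exists_isMaxOn
    ⟨fun _ => 0, fun _ _ => interior_subset h0⟩ hDc.continuousOn
  have hx' : ∀ i, x i ∈ K := fun i => hx i (Set.mem_univ i)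
  have hmax' : ∀ y : Fin d → E d, (∀ i, y i ∈ K) → D y ≤ D x := fun y hy =>
    hmax (fun i _ => hy i)
  -- the maximum is positive
  have hpos : 0 < D x := by
    obtain ⟨ρ, hρ, hball⟩ := Metric.isOpen_iff.mp isOpen_interior 0 h0
    have h1 : D (fun i => (ρ / 2) • b i) ≤ D x := by
      apply hmax'
      intro i
      apply interior_subset
      apply hball
      rw [Metric.mem_ball, dist_zero_right, norm_smul]
      have : ‖b i‖ = 1 := by simp [b]
      rw [this, Real.norm_eq_abs, abs_of_pos (by positivity)]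
      linarith
    refine lt_of_lt_of_le ?_ h1
    show 0 < b.det (fun i => (ρ / 2) • b i)
    rw [b.det.map_smul_univ (fun _ => ρ / 2) b, b.det_self]
    simp only [Finset.prod_const, smul_eq_mul, mul_one]
    positivity
  let L : Fin d → (E d →ₗ[ℝ] ℝ) := fun i => (D x)⁻¹ • b.det.toMultilinearMap.toLinearMap x i
  have hL : ∀ i y, L i y = (D x)⁻¹ * D (Function.update x i y) := fun i y => rfl
  refine ⟨x, fun i => LinearMap.toContinuousLinearMap (L i), hx', ?_, ?_⟩
  · intro i j
    show L i (x j) = _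
    rw [hL]
    split_ifs with h
    · subst h
      rw [Function.update_eq_self, inv_mul_cancel₀ hpos.ne']
    · have : D (Function.update x i (x j)) = 0 := by
        apply b.det.map_eq_zero_of_eq _ _ h
        simp [Function.update_of_ne (Ne.symm h)]
      rw [this, mul_zero]
  · intro i y hy
    show L i y ≤ 1
    rw [hL, inv_mul_le_iff₀ hpos, mul_one]
    apply hmax'
    intro j
    by_cases h : j = i
    · subst h; simpa using hy
    · rw [Function.update_of_ne h]; exact hx' j

/-- every symmetric convex body has a separable Hadwiger configuration of size `2 d` -/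
lemma exists_config (hk : IsCompact K) (hc : Convex ℝ K) (hs : ∀ x ∈ K, -x ∈ K)
    (hi : (interior K).Nonempty) :
    ∃ V : Finset (E d), IsSepHadwigerConfig K V ∧ V.card = 2 * d := by
  classical
  have h0 := zero_mem_interior hc hs hi
  have h0K : (0 : E d) ∈ K := interior_subset h0
  obtain ⟨x, f, hx, hfx, hf⟩ := auerbach hk h0
  -- signs
  let σ : Bool → ℝ := fun b => if b then 1 else -1
  let φ : Fin d × Bool → E d := fun p => (2 * σ p.2) • x p.1
  let G : Fin d × Bool → (E d →L[ℝ] ℝ) := fun p => σ p.2 • f p.1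
  have hσ : ∀ b, σ b = 1 ∨ σ b = -1 := by intro b; cases b <;> simp [σ]
  have hG1 : ∀ p, ∀ y ∈ K, G p y ≤ 1 := by
    intro p y hy
    show σ p.2 * f p.1 y ≤ 1
    rcases hσ p.2 with h | h
    · rw [h, one_mul]; exact hf _ _ hy
    · have := hf p.1 _ (hs y hy)
      rw [map_neg] at this
      rw [h]; linarith
  have hG1' : ∀ p, ∀ y ∈ K, -1 ≤ G p y := by
    intro p y hy
    have := hG1 p _ (hs y hy)
    rw [map_neg] at this
    linarith
  have hGφ : ∀ p, G p (φ p) = 2 := by
    intro p
    show σ p.2 * f p.1 ((2 * σ p.2) • x p.1) = 2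
    rw [map_smul, hfx, if_pos rfl]
    rcases hσ p.2 with h | h <;> rw [h] <;> norm_num
  have hGφ' : ∀ p q, p ≠ q → G p (φ q) ≤ 0 := by
    rintro ⟨i, a⟩ ⟨j, c⟩ hpq
    show σ a * f i ((2 * σ c) • x j) ≤ 0
    rw [map_smul, hfx]
    by_cases hij : i = j
    · subst hij
      have hac : a ≠ c := fun h => hpq (by rw [h])
      rw [if_pos rfl]
      cases a <;> cases c <;> simp_all [σ]
    · rw [if_neg hij]; simp
  have hG0 : ∀ p, G p ≠ 0 := by
    intro p h
    have := hGφ p
    rw [h] at this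
    simp at this
  have hinj : Function.Injective φ := by
    intro p q hpq
    by_contra h
    have h1 := hGφ' p q h
    rw [← hpq, hGφ] at h1
    norm_num at h1
  let V : Finset (E d) := Finset.univ.image φ
  have hmem : ∀ w ∈ (insert 0 (V : Set (E d)) : Set (E d)), w = 0 ∨ ∃ p, w = φ p := by
    intro w hw
    rcases hw with hw | hw
    · exact Or.inl hw
    · right
      have : w ∈ V := by exact_mod_cast hw
      simp only [V, Finset.mem_image, Finset.mem_univ, true_and] at this
      obtain ⟨p, hp⟩ := this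
      exact ⟨p, hp.symm⟩
  have hother : ∀ p, ∀ w ∈ (insert 0 (V : Set (E d)) : Set (E d)), w ≠ φ p → G p w ≤ 0 := by
    intro p w hw hwp
    rcases hmem w hw with rfl | ⟨q, rfl⟩
    · simp
    · exact hGφ' p q (fun h => hwp (by rw [h]))
  have hdown : ∀ p, ∀ w ∈ (insert 0 (V : Set (E d)) : Set (E d)), w ≠ φ p →
      ∀ z ∈ tr K w, G p z ≤ 1 := by
    rintro p w hw hwp z ⟨y, hy, rfl⟩
    have h1 := hother p w hw hwp
    have h2 := hG1 p y hy
    simp only [map_add]
    linarith
  have hup : ∀ p, ∀ z ∈ tr K (φ p), 1 ≤ G p z := by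
    rintro p z ⟨y, hy, rfl⟩
    have h2 := hG1' p y hy
    simp only [map_add, hGφ]
    linarith
  have hmiss : ∀ p, ∀ w ∈ (insert 0 (V : Set (E d)) : Set (E d)),
      Disjoint (interior (tr K w)) {z | G p z = 1} := by
    intro p w hw
    rw [Set.disjoint_left]
    intro z hz hz'
    have hz' : G p z = 1 := hz'
    by_cases h : w = φ p
    · subst h
      have := lt_of_mem_interior (g := -(G p)) (c := -1) (neg_ne_zero.mpr (hG0 p)) (fun y hy => by
        have := hup p y hy
        simp only [neg_apply]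
        linarith) hz
      simp only [neg_apply] at this
      linarith
    · have := lt_of_mem_interior (hG0 p) (hdown p w hw h) hz
      linarith
  have hsep : IsTotallySeparable K (insert 0 (V : Set (E d))) := by
    intro u hu v hv huv
    rcases hmem v hv with rfl | ⟨p, rfl⟩
    · rcases hmem u hu with rfl | ⟨p, rfl⟩
      · exact absurd rfl huv
      · refine ⟨-(G p), -1, neg_ne_zero.mpr (hG0 p), ?_, ?_, ?_⟩
        · intro z hz
          have := hup p z hz
          simp only [neg_apply]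
          linarith
        · intro z hz
          have := hdown p 0 hv huv.symm z hz
          simp only [neg_apply]
          linarith
        · intro w hw
          have := hmiss p w hw
          simpa [neg_inj] using this
    · exact ⟨G p, 1, hG0 p, hdown p u hu huv, hup p, hmiss p⟩
  refine ⟨V, ⟨?_, ?_, ?_, hsep⟩, ?_⟩
  · intro h
    simp only [V, Finset.mem_image, Finset.mem_univ, true_and] at h
    obtain ⟨p, hp⟩ := h
    have := hGφ p
    rw [hp] at this
    simp at this
  · intro v hv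
    simp only [V, Finset.mem_image, Finset.mem_univ, true_and] at hv
    obtain ⟨p, rfl⟩ := hv
    have hp : σ p.2 • x p.1 ∈ K := by
      rcases hσ p.2 with h | h
      · rw [h, one_smul]; exact hx _
      · rw [h, neg_one_smul]; exact hs _ (hx _)
    refine ⟨σ p.2 • x p.1, ⟨-(σ p.2 • x p.1), hs _ hp, ?_⟩, hp⟩
    show (2 * σ p.2) • x p.1 + -(σ p.2 • x p.1) = σ p.2 • x p.1
    module
  · intro u hu v hv huv
    obtain ⟨g, c, hg, h1, h2, _⟩ := hsep u hu v hv huv
    rw [Set.disjoint_left]
    intro z hz hz'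
    have a1 := lt_of_mem_interior hg h1 hz
    have a2 := lt_of_mem_interior (g := -g) (c := -c) (neg_ne_zero.mpr hg) (fun y hy => by
        have := h2 y hy
        simp only [neg_apply]
        linarith) hz'
    simp only [neg_apply] at a2
    linarith
  · rw [Finset.card_image_of_injective _ hinj]
    simp [mul_comm]

end Lower

section Thick

open Pointwise

variable {d : ℕ}

/-- the body thickened by a ball of radius `r` -/
noncomputable def thick (K : SymBody d) (r : ℝ) (hr : 0 < r) : SymBody d :=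
  ⟨{ carrier := (K.1 : Set (E d)) + Metric.closedBall 0 r
     convex' := K.1.convex.add (convex_closedBall 0 r)
     isCompact' := K.1.isCompact.add (isCompact_closedBall 0 r)
     nonempty' := K.1.nonempty.add ⟨0, Metric.mem_closedBall_self hr.le⟩ }, by
    constructor
    · obtain ⟨p, hp⟩ := K.2.1
      refine ⟨p, interior_mono ?_ hp⟩
      intro z hz
      exact ⟨z, hz, 0, Metric.mem_closedBall_self hr.le, by simp⟩
    · rintro _ ⟨p, hp, u, hu, rfl⟩
      refine ⟨-p, K.2.2 p hp, -u, ?_, ?_⟩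
      · rw [mem_closedBall_zero_iff] at hu ⊢
        rwa [norm_neg]
      · simp only [neg_add]⟩

lemma dist_thick (K : SymBody d) (r : ℝ) (hr : 0 < r) : dist (thick K r hr) K ≤ r := by
  show Metric.hausdorffDist ((K.1 : Set (E d)) + Metric.closedBall 0 r) (K.1 : Set (E d)) ≤ r
  apply Metric.hausdorffDist_le_of_mem_dist hr.le
  · rintro _ ⟨p, hp, u, hu, rfl⟩
    refine ⟨p, hp, ?_⟩
    rw [mem_closedBall_zero_iff] at hu
    simpa [dist_eq_norm] using hu
  · intro p hp
    exact ⟨p, ⟨p, hp, 0, Metric.mem_closedBall_self hr.le, by simp⟩, by simpa using hr.le⟩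

/-- a functional whose maximum on `K + B` is attained at `k + u` is given by a positive multiple
of `u` -/
lemma thick_aux {K : Set (E d)} {r : ℝ} (hr : 0 < r) {k u : E d} (hk : k ∈ K) (hu : ‖u‖ ≤ r)
    (f : E d →L[ℝ] ℝ) (hf : ∀ y ∈ K + Metric.closedBall (0 : E d) r, f y ≤ 1)
    (hf1 : f (k + u) = 1) : ∃ c : ℝ, ∀ y, f y = c * inner ℝ u y := by
  set a : E d := (InnerProductSpace.toDual ℝ (E d)).symm f with ha
  have hfa : ∀ y, f y = inner ℝ a y := by
    intro y
    rw [ha, InnerProductSpace.toDual_symm_apply]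
  have ha0 : a ≠ 0 := by
    intro h
    rw [hfa, h, inner_zero_left] at hf1
    norm_num at hf1
  have hna : 0 < ‖a‖ := norm_pos_iff.mpr ha0
  have h1 : f ((r / ‖a‖) • a) ≤ f u := by
    have := hf (k + (r / ‖a‖) • a) ⟨k, hk, (r / ‖a‖) • a, by
      rw [mem_closedBall_zero_iff, norm_smul, Real.norm_eq_abs, abs_of_pos (by positivity)]
      rw [div_mul_cancel₀ _ hna.ne'], rfl⟩
    rw [map_add] at this hf1
    linarith
  have h2 : r * ‖a‖ ≤ inner ℝ a u := by
    rw [hfa, hfa, inner_smul_right, real_inner_self_eq_norm_sq] at h1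
    have : r / ‖a‖ * ‖a‖ ^ 2 = r * ‖a‖ := by field_simp
    rwa [this] at h1
  have h3 : ‖u - (r / ‖a‖) • a‖ ^ 2 ≤ 0 := by
    rw [norm_sub_sq_real, inner_smul_right, real_inner_comm, norm_smul, Real.norm_eq_abs,
      abs_of_pos (show 0 < r / ‖a‖ by positivity), div_mul_cancel₀ _ hna.ne']
    have h4 : ‖u‖ ^ 2 ≤ r ^ 2 := by
      apply pow_le_pow_left₀ (norm_nonneg _) hu
    have h5 : r / ‖a‖ * (r * ‖a‖) ≤ r / ‖a‖ * inner ℝ a u := by gcongr
    have h6 : r / ‖a‖ * (r * ‖a‖) = r ^ 2 := by field_simp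
    nlinarith
  have h4 : u = (r / ‖a‖) • a := by
    have : ‖u - (r / ‖a‖) • a‖ = 0 := by
      have h5 := norm_nonneg (u - (r / ‖a‖) • a)
      nlinarith
    rwa [norm_eq_zero, sub_eq_zero] at this
  refine ⟨‖a‖ / r, fun y => ?_⟩
  rw [h4, inner_smul_left, hfa]
  simp only [conj_trivial]
  field_simp

lemma isSmooth_thick (K : SymBody d) (r : ℝ) (hr : 0 < r) :
    IsSmooth ((thick K r hr).1 : Set (E d)) := by
  rintro _ ⟨k, hk, u, hu, rfl⟩ f g hf hg hf1 hg1
  rw [mem_closedBall_zero_iff] at hu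
  obtain ⟨c, hc⟩ := thick_aux hr hk hu f hf hf1
  obtain ⟨c', hc'⟩ := thick_aux hr hk hu g hg hg1
  have h1 := hc (k + u)
  have h2 := hc' (k + u)
  have hf1 : f (k + u) = 1 := hf1
  have hg1 : g (k + u) = 1 := hg1
  rw [hf1] at h1
  rw [hg1] at h2
  have h3 : (inner ℝ u (k + u) : ℝ) ≠ 0 := by
    intro h
    rw [h, mul_zero] at h1
    norm_num at h1
  have h4 : c = c' := mul_right_cancel₀ h3 (h1.symm.trans h2)
  ext y
  rw [hc, hc', h4]

end Thick

lemma le_Hsep {d : ℕ} (K : SymBody d) : ((2 * d : ℕ) : ℕ∞) ≤ Hsep (K.1 : Set (E d)) := by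
  obtain ⟨V, hV, hcard⟩ := exists_config K.1.isCompact K.1.convex K.2.2 K.2.1
  rw [← hcard]
  exact le_iSup₂ (f := fun (V : Finset (E d)) (_ : IsSepHadwigerConfig (K.1 : Set (E d)) V) =>
    (V.card : ℕ∞)) V hV

lemma Hsep_le {d : ℕ} (hd : d < 8) (K : SymBody d)
    (hK : IsSmooth (K.1 : Set (E d)) ∨ StrictConvex ℝ (K.1 : Set (E d))) :
    Hsep (K.1 : Set (E d)) ≤ ((32 / (8 - d) : ℕ) : ℕ∞) := by
  refine iSup₂_le (fun V hV => ?_)
  have h := config_bound K.1.convex K.2.2 K.2.1 hK hV
  have h1 : V.card ≤ 32 / (8 - d) := by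
    rw [Nat.le_div_iff_mul_le (by omega), mul_comm]
    have h2 : (((8 - d : ℕ) : ℝ)) = 8 - (d : ℝ) := by
      rw [Nat.cast_sub hd.le]; norm_num
    rw [← h2] at h
    exact_mod_cast h
  exact_mod_cast h1

lemma Hsep_five (K : SymBody 5)
    (hK : IsSmooth (K.1 : Set (E 5)) ∨ StrictConvex ℝ (K.1 : Set (E 5))) :
    Hsep (K.1 : Set (E 5)) = 2 * 5 := by
  apply le_antisymm
  · exact (Hsep_le (by norm_num) K hK).trans (by norm_num)
  · exact_mod_cast le_Hsep K

end Pool.Agent.H3.SepHadwiger
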